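import Pool.Agent.BlockSets.Sym

/-! The Ramsey half of the block sets theorem: a minimal idempotent of the semigroup of ultrafilters
on the free monoid gives a group to which the algebraic half is applied. -/

set_option autoImplicit false
set_option linter.unusedSectionVars false

namespace Pool.Agent.BlockSets

open Equiv Function

attribute [local instance] Ultrafilter.semigroup
attribute [-instance] Sum.instBEq

/-- A minimal idempotent: `p` is idempotent and every `x` with `x * p = x` has `y * x = p`. -/
theorem exists_min_idem {S : Type*} [Nonempty S] [Semigroup S] [TopologicalSpace S]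
    [CompactSpace S] [T2Space S] (hc : ∀ r : S, Continuous (· * r)) :
    ∃ p : S, p * p = p ∧ ∀ x : S, x * p = x → ∃ y, y * x = p := by
  let F : Set (Set S) := {N | IsClosed N ∧ N.Nonempty ∧ ∀ (s : S), ∀ m ∈ N, s * m ∈ N}
  obtain ⟨L, hL⟩ : ∃ L, Minimal (· ∈ F) L := by
    refine zorn_superset _ fun c hcs hch => ?_
    refine
      ⟨⋂₀ c, ⟨isClosed_sInter fun t ht => (hcs ht).1, ?_, fun s m hm => ?_⟩, fun s hs =>
        Set.sInter_subset_of_mem hs⟩
    · obtain rfl | hcnemp := c.eq_empty_or_nonempty
      · rw [Set.sInter_empty]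
        apply Set.univ_nonempty
      convert!
        @IsCompact.nonempty_iInter_of_directed_nonempty_isCompact_isClosed _ _ _ hcnemp.coe_sort
          ((↑) : c → Set S) ?_ ?_ ?_ ?_
      · exact Set.sInter_eq_iInter
      · refine DirectedOn.directed_val (IsChain.directedOn hch.symm)
      exacts [fun i => (hcs i.prop).2.1, fun i => (hcs i.prop).1.isCompact,
        fun i => (hcs i.prop).1]
    · rw [Set.mem_sInter]
      exact fun t ht => (hcs ht).2.2 s m (Set.mem_sInter.mp hm t ht)
  obtain ⟨hLc, hLn, hLs⟩ := hL.prop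
  obtain ⟨p, hpL, hp⟩ := exists_idempotent_in_compact_subsemigroup hc L hLn hLc.isCompact
    (fun x _ y hy => hLs x y hy)
  refine ⟨p, hp, fun x hx => ?_⟩
  have hxL : x ∈ L := by
    rw [← hx]
    exact hLs x p hpL
  have hrange : Set.range (fun s : S => s * x) = L := by
    apply hL.eq_of_subset
    · refine ⟨?_, Set.range_nonempty _, ?_⟩
      · rw [← Set.image_univ]
        exact (hc x).isClosedMap _ isClosed_univ
      · rintro s _ ⟨t, rfl⟩
        exact ⟨s * t, mul_assoc _ _ _⟩
    · rintro _ ⟨t, rfl⟩
      exact hLs t x hxL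
  rw [← hrange] at hpL
  obtain ⟨y, hy⟩ := hpL
  exact ⟨y, hy⟩

/-- The local submonoid at an idempotent. -/
@[ext]
structure Loc {S : Type*} [Semigroup S] (p : S) where
  /-- the underlying element -/
  val : S
  /-- `p` is a left identity -/
  left : p * val = val
  /-- `p` is a right identity -/
  right : val * p = val

/-- The local submonoid at a minimal idempotent is a group. -/
noncomputable abbrev locGroup {S : Type*} [Semigroup S] {p : S} (hp : p * p = p)
    (hmin : ∀ x : S, x * p = x → ∃ y, y * x = p) : Group (Loc p) :=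
  letI : Mul (Loc p) := ⟨fun x y => ⟨x.val * y.val, by rw [← mul_assoc, x.left],
    by rw [mul_assoc, y.right]⟩⟩
  letI : One (Loc p) := ⟨⟨p, hp, hp⟩⟩
  letI : Inv (Loc p) := ⟨fun x => ⟨p * (hmin x.val x.right).choose * p, by
    rw [← mul_assoc, ← mul_assoc, hp], by rw [mul_assoc, hp]⟩⟩
  Group.ofLeftAxioms
    (fun x y z => Loc.ext (mul_assoc _ _ _))
    (fun x => Loc.ext x.left)
    (fun x => Loc.ext (by
      change p * (hmin x.val x.right).choose * p * x.val = p
      have h1 := (hmin x.val x.right).choose_spec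
      have h2 : p * (hmin x.val x.right).choose * p * x.val =
          p * ((hmin x.val x.right).choose * (p * x.val)) := by simp only [mul_assoc]
      rw [h2, x.left, h1, hp]))

section real

variable {m l : ℕ}

/-- The number of occurrences of the `j`-th variable. -/
def cnt (j : Fin l) (L : List (Fin m ⊕ Fin l)) : ℕ :=
  @List.count _ instBEqOfDecidableEq (Sum.inr j) L

theorem cnt_append (j : Fin l) (L L' : List (Fin m ⊕ Fin l)) :
    cnt j (L ++ L') = cnt j L + cnt j L' := List.count_append

/-- Substituting a rearrangement of the template in a word with variables. -/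
def evw (T : Fin l → Fin m) (σ : Perm (Fin l)) : FreeMonoid (Fin m ⊕ Fin l) →* FreeMonoid (Fin m) :=
  FreeMonoid.map (Sum.elim id (fun j => T (σ⁻¹ j)))

/-- The family `Y` of ultrafilters is approximated by words with variables, in which the `j`-th
variable occurs `D j` times. -/
def Approx (T : Fin l → Fin m) (D : Fin l → ℕ)
    (Y : Perm (Fin l) → Ultrafilter (FreeMonoid (Fin m))) : Prop :=
  ∀ C : Perm (Fin l) → Set (FreeMonoid (Fin m)), (∀ σ, C σ ∈ Y σ) →
    ∃ W : FreeMonoid (Fin m ⊕ Fin l), (∀ j, cnt j W.toList = D j) ∧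
      ∀ σ, evw T σ W ∈ C σ

variable {T : Fin l → Fin m}

theorem approx_const (h : Ultrafilter (FreeMonoid (Fin m))) :
    Approx T (fun _ => 0) (fun _ => h) := by
  intro C hC
  have h1 : (⋂ σ, C σ) ∈ h := by
    have := (Filter.iInter_mem (f := (h : Filter (FreeMonoid (Fin m)))) (s := C)).2 hC
    exact this
  obtain ⟨w, hw⟩ := h.nonempty_of_mem h1
  refine ⟨FreeMonoid.map Sum.inl w, fun j => ?_, fun σ => ?_⟩
  · rw [cnt, List.count_eq_zero, FreeMonoid.toList_map]
    simp
  · have h2 : evw T σ (FreeMonoid.map Sum.inl w) = w := by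
      apply FreeMonoid.toList.injective
      simp only [evw, FreeMonoid.toList_map, List.map_map]
      have : (Sum.elim id fun j => T (σ⁻¹ j)) ∘ (Sum.inl : Fin m → Fin m ⊕ Fin l) = id := by
        funext x; rfl
      rw [this, List.map_id]
    rw [h2]
    exact Set.mem_iInter.1 hw σ

theorem approx_letter (j : Fin l) :
    Approx T (fun i => if i = j then 1 else 0)
      (fun σ => pure (FreeMonoid.of (T (σ⁻¹ j)))) := by
  intro C hC
  refine ⟨FreeMonoid.of (Sum.inr j), fun i => ?_, fun σ => ?_⟩
  · rw [cnt, FreeMonoid.toList_of, List.count_singleton]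
    by_cases hij : i = j
    · simp [hij]
    · have hji : ¬ j = i := fun h => hij h.symm
      simp [hij, hji]
  · have h1 := hC σ
    rw [Ultrafilter.mem_pure] at h1
    simpa [evw] using h1

theorem Approx.mul {D D' : Fin l → ℕ} {Y Y' : Perm (Fin l) → Ultrafilter (FreeMonoid (Fin m))}
    (h : Approx T D Y) (h' : Approx T D' Y') :
    Approx T (fun j => D j + D' j) (fun σ => Y σ * Y' σ) := by
  intro C hC
  obtain ⟨W, hW, hWC⟩ := h (fun σ => {x | {y | x * y ∈ C σ} ∈ Y' σ}) (fun σ => by
    have := (Ultrafilter.eventually_mul (Y σ) (Y' σ) (fun x => x ∈ C σ)).1 (hC σ)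
    exact this)
  obtain ⟨W', hW', hWC'⟩ := h' (fun σ => {y | evw T σ W * y ∈ C σ}) (fun σ => hWC σ)
  refine ⟨W * W', fun j => ?_, fun σ => ?_⟩
  · rw [FreeMonoid.toList_mul, cnt_append, hW, hW']
  · rw [map_mul]
    exact hWC' σ

theorem Approx.shift {d : ℕ} {Y : Perm (Fin l) → Ultrafilter (FreeMonoid (Fin m))}
    (h : Approx T (fun _ => d) Y) (g : Perm (Fin l)) :
    Approx T (fun _ => d) (fun σ => Y (g * σ)) := by
  intro C hC
  obtain ⟨W, hW, hWC⟩ := h (fun τ => C (g⁻¹ * τ)) (fun τ => by
    have := hC (g⁻¹ * τ)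
    simpa using this)
  refine ⟨FreeMonoid.map (Sum.map id (g⁻¹ : Perm (Fin l))) W, fun j => ?_, fun σ => ?_⟩
  · rw [FreeMonoid.toList_map]
    have hinj : Injective (Sum.map (id : Fin m → Fin m) (g⁻¹ : Perm (Fin l))) :=
      Sum.map_injective.2 ⟨injective_id, (g⁻¹).injective⟩
    have h1 := List.count_map_of_injective W.toList _ hinj (Sum.inr (g j))
    rw [← hW (g j), cnt, cnt, ← h1]
    simp
  · have h1 := hWC (g * σ)
    have h2 : evw T σ (FreeMonoid.map (Sum.map id (g⁻¹ : Perm (Fin l))) W) = evw T (g * σ) W := by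
      apply FreeMonoid.toList.injective
      simp only [evw, FreeMonoid.toList_map, List.map_map]
      congr 1
      funext x
      rcases x with x | x
      · rfl
      · simp
    rw [h2]
    simpa using h1

/-- The main lemma: there are a degree `d > 0` and an ultrafilter `z` all of whose members contain
a block set of degree `d`. -/
theorem exists_ultrafilter (T : Fin l → Fin m) :
    ∃ d, 0 < d ∧ ∃ z : Ultrafilter (FreeMonoid (Fin m)), ∀ C ∈ z,
      ∃ W : FreeMonoid (Fin m ⊕ Fin l), (∀ j, cnt j W.toList = d) ∧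
        ∀ σ, evw T σ W ∈ C := by
  classical
  have : Nonempty (Ultrafilter (FreeMonoid (Fin m))) := ⟨pure 1⟩
  obtain ⟨p, hp, hmin⟩ := exists_min_idem (S := Ultrafilter (FreeMonoid (Fin m)))
    (fun r => Ultrafilter.continuous_mul_left r)
  let : Group (Loc p) := locGroup hp hmin
  let gg : Fin m → Loc p := fun a => ⟨p * pure (FreeMonoid.of a) * p, by
    rw [← mul_assoc, ← mul_assoc, hp], by rw [mul_assoc, hp]⟩
  let U : Perm (Fin l) → Loc p := fun σ => ((List.finRange l).map fun j => gg (T (σ⁻¹ j))).prod
  have hU0 : ∀ J : List (Fin l), Approx T (fun j => J.count j)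
      (fun σ => ((J.map fun j => gg (T (σ⁻¹ j))).prod).val) := by
    intro J
    induction J with
    | nil => exact approx_const p
    | cons i J ih =>
      have h1 := (((approx_const (T := T) p).mul (approx_letter i)).mul (approx_const p)).mul ih
      have h2 : (fun j => 0 + (if j = i then 1 else 0) + 0 + List.count j J) =
          fun j => List.count j (i :: J) := by
        funext j
        rw [List.count_cons]
        by_cases hij : j = i
        · simp [hij, add_comm]
        · simp [hij, Ne.symm hij]
      rw [h2] at h1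
      exact h1
  have hU : Approx T (fun _ => 1) (fun σ => (U σ).val) := by
    have h1 := hU0 (List.finRange l)
    have h2 : (fun j => List.count j (List.finRange l)) = fun _ => 1 := by
      funext j
      exact List.count_eq_one_of_mem (List.nodup_finRange l) (List.mem_finRange j)
    rw [h2] at h1
    exact h1
  obtain ⟨d, hd, Y, hY, hinv⟩ := symmetrise (G := Loc p) (O := Perm (Fin l)) l (Fin l)
    (by simp) (MulAction.toPermHom (Perm (Fin l)) (Perm (Fin l))) U
  have hYA : Approx T (fun _ => d) (fun σ => (Y σ).val) := by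
    clear hd hinv
    induction hY with
    | const c => exact approx_const c.val
    | base g => exact hU.shift g
    | mul _ _ ih1 ih2 => exact ih1.mul ih2
  refine ⟨d, hd, (Y 1).val, fun C hC => hYA (fun _ => C) (fun σ => ?_)⟩
  have h1 := hinv σ 1
  have h2 : (MulAction.toPermHom (Perm (Fin l)) (Perm (Fin l))) σ 1 = σ := by simp
  rw [h2] at h1
  simp only [h1]
  exact hC

end real

end Pool.Agent.BlockSets
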