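import Mathlib

/-! The algebraic half of the block sets theorem: every function on a finite set with an action of
a symmetric group, with values in a group, has a product of translates and constants (with at least
one translate) which is invariant. -/

set_option autoImplicit false
set_option linter.unusedSectionVars false

namespace Pool.Agent.BlockSets

open Equiv Function

variable {G : Type*} [Group G] {O : Type*} {α : Type*}

/-- `Gen φ U n Y`: the function `Y` is a product of constants and of `n` translates of `U`. -/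
inductive Gen (φ : Perm α →* Perm O) (U : O → G) : ℕ → (O → G) → Prop
  | const (c : G) : Gen φ U 0 (fun _ => c)
  | base (g : Perm α) : Gen φ U 1 (fun o => U (φ g o))
  | mul {m n : ℕ} {Y Z : O → G} :
      Gen φ U m Y → Gen φ U n Z → Gen φ U (m + n) (fun o => Y o * Z o)

theorem Gen.shift {φ : Perm α →* Perm O} {U : O → G} {n : ℕ} {Y : O → G} (h : Gen φ U n Y)
    (g : Perm α) : Gen φ U n (fun o => Y (φ g o)) := by
  induction h with
  | const c => exact Gen.const c
  | base k =>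
    have := Gen.base (φ := φ) (U := U) (k * g)
    simpa [map_mul] using this
  | mul _ _ ih1 ih2 => exact Gen.mul ih1 ih2

theorem Gen.self (φ : Perm α →* Perm O) (U : O → G) : Gen φ U 1 U := by
  have := Gen.base (φ := φ) (U := U) 1
  simpa using this

theorem Gen.trans {φ : Perm α →* Perm O} {U Z : O → G} {n k : ℕ} {Y : O → G} (hZ : Gen φ U n Z)
    (h : Gen φ Z k Y) : Gen φ U (k * n) Y := by
  induction h with
  | const c => simpa using Gen.const c
  | base g => simpa using hZ.shift g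
  | mul _ _ ih1 ih2 =>
    rw [add_mul]
    exact Gen.mul ih1 ih2

theorem Gen.orbit_const {φ : Perm α →* Perm O} {U : O → G} {n : ℕ} {Y : O → G}
    (h : Gen φ U n Y) {o : O} (hU : ∀ g, U (φ g o) = U o) (g : Perm α) : Y (φ g o) = Y o := by
  induction h with
  | const c => rfl
  | base k =>
    have h1 := hU (k * g)
    have h2 := hU k
    simp only [map_mul, Perm.mul_apply] at h1
    simp only [h1, h2]
  | mul _ _ ih1 ih2 => simp only [ih1, ih2]

theorem Gen.inv_of {φ : Perm α →* Perm O} {β : Type*} {ψ : Perm β →* Perm α}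
    {U : O → G} {n : ℕ} {Y : O → G} (h : Gen (φ.comp ψ) U n Y) : Gen φ U n Y := by
  induction h with
  | const c => exact Gen.const c
  | base k => exact Gen.base (ψ k)
  | mul _ _ ih1 ih2 => exact Gen.mul ih1 ih2

/-- Products of constants and of coordinates other than `x₀`. -/
inductive Rep (x₀ : α) : ((α → G) → G) → Prop
  | const (c : G) : Rep x₀ (fun _ => c)
  | coord (i : α) (hi : i ≠ x₀) : Rep x₀ (fun z => z i)
  | mul {v w : (α → G) → G} : Rep x₀ v → Rep x₀ w → Rep x₀ (fun z => v z * w z)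

theorem Rep.congr {x₀ : α} {w : (α → G) → G} (h : Rep x₀ w) {z z' : α → G}
    (hz : ∀ i, i ≠ x₀ → z i = z' i) : w z = w z' := by
  induction h with
  | const c => rfl
  | coord i hi => exact hz i hi
  | mul _ _ ih1 ih2 => simp only [ih1, ih2]

theorem Rep.gen [DecidableEq α] {x₀ : α} {w : (α → G) → G} (h : Rep x₀ w)
    (φ : Perm α →* Perm O) (Z : O → G) (z₀ : α → G) (j : α) :
    ∃ k, Gen φ Z k (fun o => w (update z₀ j (Z o))) := by
  induction h with
  | const c => exact ⟨0, Gen.const c⟩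
  | coord i hi =>
    by_cases hij : i = j
    · subst hij
      exact ⟨1, by simpa using Gen.self φ Z⟩
    · exact ⟨0, by simpa [update_of_ne hij] using Gen.const (φ := φ) (U := Z) (z₀ i)⟩
  | mul _ _ ih1 ih2 =>
    obtain ⟨k1, h1⟩ := ih1
    obtain ⟨k2, h2⟩ := ih2
    exact ⟨_, Gen.mul h1 h2⟩

section merge

variable [DecidableEq α]

/-- The vector of translates of `Z`. -/
def zvec (φ : Perm α →* Perm O) (x₀ : α) (Z : O → G) (o : O) (i : α) : G :=
  Z (φ (swap x₀ i) o)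

variable {φ : Perm α →* Perm O} {x₀ : α} {Z : O → G}

theorem zvec_self (o : O) : zvec φ x₀ Z o x₀ = Z o := by
  unfold zvec
  rw [show swap x₀ x₀ = (1 : Perm α) from swap_self x₀, map_one, Perm.one_apply]

theorem eq_zvec (hZ : ∀ g : Perm α, g x₀ = x₀ → ∀ o, Z (φ g o) = Z o) (g : Perm α) (o : O) :
    Z (φ g o) = zvec φ x₀ Z o (g⁻¹ x₀) := by
  unfold zvec
  have h1 : (g * swap x₀ (g⁻¹ x₀)) x₀ = x₀ := by simp
  have h2 := hZ _ h1 (φ (swap x₀ (g⁻¹ x₀)) o)
  rw [← h2, ← Perm.mul_apply, ← map_mul, mul_assoc, swap_mul_self, mul_one]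

theorem zvec_act (hZ : ∀ g : Perm α, g x₀ = x₀ → ∀ o, Z (φ g o) = Z o) (g : Perm α) (o : O)
    (i : α) : zvec φ x₀ Z (φ g o) i = zvec φ x₀ Z o (g⁻¹ i) := by
  have : zvec φ x₀ Z (φ g o) i = Z (φ (swap x₀ i * g) o) := by
    simp [zvec, map_mul]
  rw [this, eq_zvec hZ]
  simp

/-- A function obtained from a translate `zvec _ j`, `j ≠ x₀`, by products of translates by
permutations fixing `x₀`, is a polynomial in the coordinates other than `x₀`. -/
theorem rep_of_gen (hZ : ∀ g : Perm α, g x₀ = x₀ → ∀ o, Z (φ g o) = Z o) {j : α} (hj : j ≠ x₀)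
    {n : ℕ} {W : O → G}
    (h : Gen (φ.comp (Perm.ofSubtype (p := fun x => x ≠ x₀)))
      (fun o => zvec φ x₀ Z o j) n W) :
    ∃ w, Rep x₀ w ∧ ∀ o, W o = w (zvec φ x₀ Z o) := by
  induction h with
  | const c => exact ⟨_, Rep.const c, fun _ => rfl⟩
  | base k =>
    refine ⟨fun z => z ((Perm.ofSubtype k)⁻¹ j), Rep.coord _ ?_, fun o => ?_⟩
    · intro hc
      rw [Perm.inv_eq_iff_eq, Perm.ofSubtype_apply_of_not_mem k (by simp)] at hc
      exact hj hc
    · exact zvec_act hZ _ _ _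
  | mul _ _ ih1 ih2 =>
    obtain ⟨w1, h1, h1'⟩ := ih1
    obtain ⟨w2, h2, h2'⟩ := ih2
    exact ⟨_, Rep.mul h1 h2, fun o => by simp only [h1', h2']⟩

theorem merge_step
    (hclaim : ∀ (ψ : Perm {x // x ≠ x₀} →* Perm O) (U : O → G),
      ∃ n, 0 < n ∧ ∃ Y, Gen ψ U n Y ∧ ∀ g o, Y (ψ g o) = Y o)
    (hZ : ∀ g : Perm α, g x₀ = x₀ → ∀ o, Z (φ g o) = Z o) (o₀ : O) (g₀ : Perm α)
    (hab : Z (φ g₀ o₀) ≠ Z o₀) :
    ∃ k, 0 < k ∧ ∃ f : O → G, Gen φ Z k f ∧ (∀ g : Perm α, g x₀ = x₀ → ∀ o, f (φ g o) = f o) ∧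
      (∀ g h : Perm α, Z (φ g o₀) = Z (φ h o₀) → f (φ g o₀) = f (φ h o₀)) ∧
      f (φ g₀ o₀) = f o₀ := by
  classical
  set j : α := g₀⁻¹ x₀ with hjdef
  have hj : j ≠ x₀ := by
    intro hc
    apply hab
    apply hZ
    have : g₀ (g₀⁻¹ x₀) = g₀ x₀ := by rw [← hjdef, hc]
    simpa using this.symm
  have hb : Z (φ g₀ o₀) = zvec φ x₀ Z o₀ j := eq_zvec hZ _ _
  set z₀ := zvec φ x₀ Z o₀ with hz₀
  obtain ⟨n, hn, W, hW, hWinv⟩ := hclaim (φ.comp (Perm.ofSubtype (p := fun x => x ≠ x₀)))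
    (fun o => zvec φ x₀ Z o j)
  obtain ⟨w, hw, hWw⟩ := rep_of_gen hZ hj hW
  have hWgen : Gen φ Z n W := by
    have h1 : Gen φ (fun o => zvec φ x₀ Z o j) n W := Gen.inv_of hW
    have h2 : Gen φ Z 1 (fun o => zvec φ x₀ Z o j) := Gen.base (swap x₀ j)
    simpa using Gen.trans h2 h1
  have hWinv' : ∀ g : Perm α, g x₀ = x₀ → ∀ o, W (φ g o) = W o := by
    intro g hg o
    have hmem : ∀ x, g x ≠ x₀ ↔ x ≠ x₀ := by
      intro x
      constructor
      · intro hx hc
        exact hx (by rw [hc, hg])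
      · intro hx hc
        exact hx (g.injective (hc.trans hg.symm))
    have h1 : Perm.ofSubtype (g.subtypePerm (p := fun x => x ≠ x₀) hmem) = g :=
      Perm.ofSubtype_subtypePerm _ (fun x hx hc => hx (by rw [hc, hg]))
    have h2 := hWinv (g.subtypePerm (p := fun x => x ≠ x₀) hmem) o
    rw [MonoidHom.comp_apply, h1] at h2
    exact h2
  -- `W` is a function of `Z` on the orbit
  have hWZ : ∀ (o : O) (g : Perm α), Z (φ g o) = Z o → W (φ g o) = W o := by
    intro o g hg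
    set i₀ : α := g⁻¹ x₀ with hi₀
    have h1 : zvec φ x₀ Z o i₀ = zvec φ x₀ Z o x₀ := by
      rw [zvec_self, ← hg, eq_zvec hZ]
    set τ : Perm α := swap x₀ i₀ * g⁻¹ with hτ
    have hτx : τ x₀ = x₀ := by
      rw [hτ, Perm.mul_apply, ← hi₀, swap_apply_right]
    have h2 : ∀ i, zvec φ x₀ Z o (τ i) = zvec φ x₀ Z o (g⁻¹ i) := by
      intro i
      rw [hτ, Perm.mul_apply]
      by_cases hx : g⁻¹ i = x₀
      · rw [hx, swap_apply_left, h1]
      · by_cases hy : g⁻¹ i = i₀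
        · rw [hy, swap_apply_right, h1]
        · rw [swap_apply_of_ne_of_ne hx hy]
    have h3 : zvec φ x₀ Z (φ g o) = zvec φ x₀ Z (φ τ⁻¹ o) := by
      funext i
      rw [zvec_act hZ, zvec_act hZ, inv_inv, h2]
    rw [hWw, h3, ← hWw, hWinv' τ⁻¹ _ o]
    rw [Perm.inv_eq_iff_eq, hτx]
  obtain ⟨k, hk⟩ := hw.gen φ Z z₀ j
  set o' : O := φ (swap x₀ j) o₀ with ho'
  have hZo' : Z o' = Z (φ g₀ o₀) := by rw [hb]; rfl
  have hWo' : w (update z₀ j (Z o₀)) = W o' := by
    rw [hWw]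
    apply hw.congr
    intro i hi
    rw [ho', zvec_act hZ, swap_inv]
    by_cases hij : i = j
    · subst hij
      rw [update_self, swap_apply_right, zvec_self]
    · rw [update_of_ne hij, swap_apply_of_ne_of_ne hi hij]
  have hWo : w (update z₀ j (Z (φ g₀ o₀))) = W o₀ := by
    rw [hWw, hb, update_eq_self]
  refine ⟨n + 0 + k, by omega, fun o => W o * (W o')⁻¹ * w (update z₀ j (Z o)), ?_, ?_, ?_, ?_⟩
  · exact Gen.mul (Gen.mul hWgen (Gen.const _)) hk
  · intro g hg o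
    simp only [hWinv' g hg, hZ g hg]
  · intro g h hgh
    have : W (φ g o₀) = W (φ h o₀) := by
      have h1 := hWZ (φ h o₀) (g * h⁻¹)
      have h2 : φ (g * h⁻¹) (φ h o₀) = φ g o₀ := by
        rw [← Perm.mul_apply, ← map_mul, inv_mul_cancel_right]
      rw [h2] at h1
      exact h1 hgh
    simp only [this, hgh]
  · have h1 : W (φ g₀ o₀) = W o' := by
      have h1 := hWZ o' (g₀ * (swap x₀ j)⁻¹)
      have h2 : φ (g₀ * (swap x₀ j)⁻¹) o' = φ g₀ o₀ := by
        rw [ho', ← Perm.mul_apply, ← map_mul, inv_mul_cancel_right]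
      rw [h2] at h1
      exact h1 hZo'.symm
    simp only [h1, hWo, hWo', mul_inv_cancel, one_mul, inv_mul_cancel_right]

end merge

/-- Making a function constant on one orbit. -/
theorem one_orbit [DecidableEq α] [Finite α] {x₀ : α}
    (hclaim : ∀ (ψ : Perm {x // x ≠ x₀} →* Perm O) (U : O → G),
      ∃ n, 0 < n ∧ ∃ Y, Gen ψ U n Y ∧ ∀ g o, Y (ψ g o) = Y o)
    (φ : Perm α →* Perm O) (U : O → G) (o₁ : O) :
    ∃ n, 0 < n ∧ ∃ Y, Gen φ U n Y ∧ ∀ g, Y (φ g o₁) = Y o₁ := by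
  classical
  have hex : ∃ q : ℕ, ∃ n, 0 < n ∧ ∃ Z, Gen φ U n Z ∧
      (∀ g : Perm α, g x₀ = x₀ → ∀ o, Z (φ g o) = Z o) ∧
      (Set.range fun g : Perm α => Z (φ g o₁)).ncard = q := by
    obtain ⟨n, hn, Z, hZ, hZinv⟩ := hclaim (φ.comp (Perm.ofSubtype (p := fun x => x ≠ x₀))) U
    refine ⟨_, n, hn, Z, Gen.inv_of hZ, ?_, rfl⟩
    intro g hg o
    have hmem : ∀ x, g x ≠ x₀ ↔ x ≠ x₀ := by
      intro x
      constructor
      · intro hx hc
        exact hx (by rw [hc, hg])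
      · intro hx hc
        exact hx (g.injective (hc.trans hg.symm))
    have h1 : Perm.ofSubtype (g.subtypePerm (p := fun x => x ≠ x₀) hmem) = g :=
      Perm.ofSubtype_subtypePerm _ (fun x hx hc => hx (by rw [hc, hg]))
    have h2 := hZinv (g.subtypePerm (p := fun x => x ≠ x₀) hmem) o
    rw [MonoidHom.comp_apply, h1] at h2
    exact h2
  obtain ⟨n, hn, Z, hZ, hZinv, hq⟩ := Nat.find_spec hex
  refine ⟨n, hn, Z, hZ, ?_⟩
  by_contra hne
  push Not at hne
  obtain ⟨g₀, hg₀⟩ := hne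
  obtain ⟨k, hk, f, hf, hfinv, hfZ, hfab⟩ := merge_step hclaim hZinv o₁ g₀ hg₀
  refine Nat.find_min hex ?_ ⟨k * n, Nat.mul_pos hk hn, f, Gen.trans hZ hf, hfinv, rfl⟩
  rw [← hq]
  have hfin : (Set.range fun g : Perm α => Z (φ g o₁)).Finite := Set.finite_range _
  -- the map from values of `Z` to values of `f`
  let F : G → G := fun x => if h : ∃ g : Perm α, Z (φ g o₁) = x then f (φ h.choose o₁) else x
  have hF : ∀ g : Perm α, F (Z (φ g o₁)) = f (φ g o₁) := by
    intro g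
    have h : ∃ g' : Perm α, Z (φ g' o₁) = Z (φ g o₁) := ⟨g, rfl⟩
    simp only [F, dif_pos h]
    exact hfZ _ _ h.choose_spec
  have hsub : (Set.range fun g : Perm α => f (φ g o₁)) ⊆
      F '' ((Set.range fun g : Perm α => Z (φ g o₁)) \ {Z (φ g₀ o₁)}) := by
    rintro _ ⟨g, rfl⟩
    by_cases hg : Z (φ g o₁) = Z (φ g₀ o₁)
    · refine ⟨Z o₁, ⟨⟨1, by simp⟩, ?_⟩, ?_⟩
      · simpa using Ne.symm hg₀
      · have h1 := hF 1
        simp only [map_one, Perm.one_apply] at h1
        rw [h1, ← hfab]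
        exact hfZ _ _ hg.symm
    · exact ⟨Z (φ g o₁), ⟨⟨g, rfl⟩, hg⟩, hF g⟩
  calc (Set.range fun g : Perm α => f (φ g o₁)).ncard
      ≤ (F '' ((Set.range fun g : Perm α => Z (φ g o₁)) \ {Z (φ g₀ o₁)})).ncard :=
        Set.ncard_le_ncard hsub ((hfin.subset Set.sdiff_subset).image _)
    _ ≤ ((Set.range fun g : Perm α => Z (φ g o₁)) \ {Z (φ g₀ o₁)}).ncard :=
        Set.ncard_image_le (hfin.subset Set.sdiff_subset)
    _ < (Set.range fun g : Perm α => Z (φ g o₁)).ncard :=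
        Set.ncard_sdiff_singleton_lt_of_mem ⟨g₀, rfl⟩ hfin

/-- The algebraic claim. -/
theorem symmetrise [Finite O] (n : ℕ) : ∀ (α : Type) [Finite α], Nat.card α = n →
    ∀ (φ : Perm α →* Perm O) (U : O → G),
      ∃ n, 0 < n ∧ ∃ Y, Gen φ U n Y ∧ ∀ g o, Y (φ g o) = Y o := by
  classical
  induction n with
  | zero =>
    intro α _ hα φ U
    have : IsEmpty α := (Finite.card_eq_zero_iff).1 hα
    refine ⟨1, one_pos, U, Gen.self φ U, ?_⟩
    intro g o
    have : g = 1 := Subsingleton.elim _ _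
    simp [this]
  | succ n ih =>
    intro α _ hα φ U
    have hne : Nonempty α := by
      by_contra h
      rw [not_nonempty_iff] at h
      rw [Nat.card_of_isEmpty] at hα
      omega
    obtain ⟨x₀⟩ := hne
    have hβ : Nat.card {x // x ≠ x₀} = n := by
      have : Fintype α := Fintype.ofFinite α
      rw [Nat.card_eq_fintype_card] at hα ⊢
      simp [Fintype.card_subtype_compl, hα]
    have hclaim := ih {x // x ≠ x₀} hβ
    have key : ∀ s : Finset O, ∃ n, 0 < n ∧ ∃ Y, Gen φ U n Y ∧ ∀ o ∈ s, ∀ g, Y (φ g o) = Y o := by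
      intro s
      induction s using Finset.induction_on with
      | empty => exact ⟨1, one_pos, U, Gen.self φ U, by simp⟩
      | insert o s _ ihs =>
        obtain ⟨n₁, hn₁, Y₁, hY₁, hs₁⟩ := ihs
        obtain ⟨n₂, hn₂, Y₂, hY₂, ho₂⟩ := one_orbit hclaim φ Y₁ o
        refine ⟨n₂ * n₁, Nat.mul_pos hn₂ hn₁, Y₂, Gen.trans hY₁ hY₂, ?_⟩
        intro o' ho' g
        rcases Finset.mem_insert.1 ho' with rfl | ho'
        · exact ho₂ g
        · exact hY₂.orbit_const (hs₁ o' ho') g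
    have : Fintype O := Fintype.ofFinite O
    obtain ⟨n', hn', Y, hY, h⟩ := key Finset.univ
    exact ⟨n', hn', Y, hY, fun g o => h o (Finset.mem_univ o) g⟩

end Pool.Agent.BlockSets
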